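import Pool.Agent.Helper4.AE.St

/-!
# Project AE, module GAP
-/

set_option autoImplicit false

namespace Pool.Agent.Helper84.AE

open Pool.Agent.Helper4.AE
open Finset

theorem hGAP : StGAP := by
  intro hVAR m _ B g h hB
  have hm0' : 0 < m := Nat.pos_of_ne_zero (NeZero.ne m)
  have hm0 : (0 : ℝ) < m := by exact_mod_cast hm0'
  obtain ⟨h1, h2⟩ := hVAR m B h
  set K : ℝ := (B.card : ℝ) * h / m with hK
  have hKm : (B.card : ℝ) * h = K * m := by rw [hK]; field_simp
  have hid : ∑ v : ZMod m, ((Nn B h v : ℝ) - K) ^ 2 =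
      (∑ v : ZMod m, (Nn B h v : ℝ) ^ 2) - (B.card : ℝ) ^ 2 * (h : ℝ) ^ 2 / m := by
    have e1 : ∀ v : ZMod m, ((Nn B h v : ℝ) - K) ^ 2 =
        (Nn B h v : ℝ) ^ 2 - 2 * K * (Nn B h v : ℝ) + K ^ 2 := fun v => by ring
    simp only [e1]
    rw [sum_add_distrib, sum_sub_distrib, ← mul_sum, sum_const, card_univ, ZMod.card, nsmul_eq_mul]
    have e2 : ∑ v : ZMod m, (Nn B h v : ℝ) = B.card * h := by exact_mod_cast h1
    have e3 : (B.card : ℝ) ^ 2 * (h : ℝ) ^ 2 / m = K ^ 2 * m := by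
      rw [← mul_pow, hKm]
      field_simp
    rw [e2, hKm, e3]
    ring
  rw [← hid]
  refine ⟨fun hg hhg => ?_, sum_nonneg fun v _ => sq_nonneg _⟩
  -- the gap is attained
  have hmem : gap B ∈ {g : ℕ | g ≤ m ∧ ∃ a ∈ B, ∀ i : ℕ, 0 < i → i < g → a + (i : ZMod m) ∉ B} := by
    unfold gap
    refine Nat.sSup_mem ?_ ⟨m, fun x hx => hx.1⟩
    obtain ⟨a, ha⟩ := hB
    exact ⟨0, Nat.zero_le _, a, ha, fun i _ hi => absurd hi (Nat.not_lt_zero i)⟩
  obtain ⟨hGm, a, haB, ha⟩ := hmem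
  have hgm : g ≤ m := hg.trans hGm
  have hzero : ∀ t, t < g - h → Nn B h (a + 1 + (t : ZMod m)) = 0 := by
    intro t ht
    unfold Nn
    rw [card_eq_zero, filter_eq_empty_iff]
    intro p hp hpe
    rw [mem_product, mem_range] at hp
    have h3 : a + ((1 + t + p.2 : ℕ) : ZMod m) ∉ B := ha (1 + t + p.2) (by omega) (by omega)
    apply h3
    have h4 : a + ((1 + t + p.2 : ℕ) : ZMod m) = p.1 := by
      rw [hpe]
      push_cast
      ring
    rw [h4]
    exact hp.1
  have hinj : Set.InjOn (fun t : ℕ => a + 1 + (t : ZMod m)) (range (g - h) : Set ℕ) := by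
    intro t ht t' ht' hE
    rw [mem_coe, mem_range] at ht ht'
    have h5 : (t : ZMod m) = (t' : ZMod m) := add_left_cancel hE
    rw [ZMod.natCast_eq_natCast_iff'] at h5
    rwa [Nat.mod_eq_of_lt (by omega), Nat.mod_eq_of_lt (by omega)] at h5
  have hcard : ((range (g - h)).image (fun t : ℕ => a + 1 + (t : ZMod m))).card = g - h := by
    rw [card_image_of_injOn hinj, card_range]
  calc ((g : ℝ) - h) * K ^ 2
      = ∑ v ∈ (range (g - h)).image (fun t : ℕ => a + 1 + (t : ZMod m)), K ^ 2 := by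
        rw [sum_const, hcard, nsmul_eq_mul, Nat.cast_sub hhg]
    _ = ∑ v ∈ (range (g - h)).image (fun t : ℕ => a + 1 + (t : ZMod m)),
          ((Nn B h v : ℝ) - K) ^ 2 := by
        refine sum_congr rfl fun v hv => ?_
        obtain ⟨t, ht, rfl⟩ := mem_image.1 hv
        rw [hzero t (mem_range.1 ht)]
        push_cast
        ring
    _ ≤ ∑ v : ZMod m, ((Nn B h v : ℝ) - K) ^ 2 :=
        sum_le_sum_of_subset_of_nonneg (subset_univ _) fun v _ _ => sq_nonneg _

end Pool.Agent.Helper84.AE
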